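import Pool.Agent.H979.BK.Stm

/-! # Concrete form of the decay of random products (project BK, MP_1e2081_pr) -/

open Filter Topology Finset Pool.Agent.H979.BK

namespace Pool.Agent.H710

section Cyc
variable {d : ℕ}

/-- composition with a permutation -/
def pl (σ : Equiv.Perm (Fin d)) : (Fin d → ℂ) →ₗ[ℂ] (Fin d → ℂ) where
  toFun y := fun i => y (σ i)
  map_add' _ _ := rfl
  map_smul' _ _ := rfl

/-- the cyclic subspace of `v` -/
def cycl (μ : Equiv.Perm (Fin d) → ℝ) (v : Fin d → ℂ) : Submodule ℂ (Fin d → ℂ) :=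
  sInf {S | v ∈ S ∧ ∀ σ, 0 < μ σ → ∀ x ∈ S, pl σ x ∈ S}

variable {μ : Equiv.Perm (Fin d) → ℝ} {v : Fin d → ℂ}

theorem mem_cycl : v ∈ cycl μ v := by
  rw [cycl, Submodule.mem_sInf]
  exact fun S hS => hS.1

theorem pl_mem_cycl {σ : Equiv.Perm (Fin d)} (hσ : 0 < μ σ) {x : Fin d → ℂ}
    (hx : x ∈ cycl μ v) : pl σ x ∈ cycl μ v := by
  rw [cycl, Submodule.mem_sInf] at hx ⊢
  exact fun S hS => hS.2 σ hσ x (hx S hS)

theorem cycl_le {S : Submodule ℂ (Fin d → ℂ)} (h1 : v ∈ S)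
    (h2 : ∀ σ, 0 < μ σ → ∀ x ∈ S, pl σ x ∈ S) : cycl μ v ≤ S := sInf_le ⟨h1, h2⟩

theorem sum_zero_of_mem (hv : ∑ i, v i = 0) {x : Fin d → ℂ} (hx : x ∈ cycl μ v) :
    ∑ i, x i = 0 := by
  let S : Submodule ℂ (Fin d → ℂ) :=
    LinearMap.ker (∑ i, (LinearMap.proj i : (Fin d → ℂ) →ₗ[ℂ] ℂ))
  have hS : ∀ y : Fin d → ℂ, y ∈ S ↔ ∑ i, y i = 0 := by
    intro y
    simp only [S, LinearMap.mem_ker, LinearMap.sum_apply, LinearMap.proj_apply]
  have hle : cycl μ v ≤ S := cycl_le ((hS v).2 hv) (fun σ _ y hy => (hS _).2 (by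
    rw [← (hS y).1 hy]
    exact Equiv.sum_comp σ y))
  exact (hS x).1 (hle hx)

/-- the permutation operators on the cyclic subspace -/
noncomputable def PP (μ : Equiv.Perm (Fin d) → ℝ) (v : Fin d → ℂ)
    (s : {σ : Equiv.Perm (Fin d) // 0 < μ σ}) : cycl μ v →L[ℂ] cycl μ v :=
  LinearMap.mkContinuous ((pl s.1).restrict (fun x hx => pl_mem_cycl s.2 hx)) 1 (by
    intro x
    rw [one_mul]
    change ‖(pl s.1 x.1 : Fin d → ℂ)‖ ≤ ‖(x.1 : Fin d → ℂ)‖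
    refine (pi_norm_le_iff_of_nonneg (norm_nonneg _)).2 fun i => ?_
    exact norm_le_pi_norm x.1 (s.1 i))

theorem PP_apply (s : {σ : Equiv.Perm (Fin d) // 0 < μ σ}) (y : cycl μ v) (i : Fin d) :
    (PP μ v s y).1 i = y.1 (s.1 i) := rfl

/-- a row vector as a functional -/
noncomputable def Phi (μ : Equiv.Perm (Fin d) → ℝ) (v : Fin d → ℂ) (w : Fin d → ℝ) :
    cycl μ v →L[ℂ] ℂ :=
  LinearMap.toContinuousLinearMap
    ((∑ l, ((w l : ℝ) : ℂ) • (LinearMap.proj l : (Fin d → ℂ) →ₗ[ℂ] ℂ)).comp (cycl μ v).subtype)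

theorem Phi_apply (w : Fin d → ℝ) (y : cycl μ v) : Phi μ v w y = ∑ l, ((w l : ℝ) : ℂ) * y.1 l := by
  simp [Phi]

theorem Phi_vecMul (δ : ℝ) (w : Fin d → ℝ) (s : {σ : Equiv.Perm (Fin d) // 0 < μ σ}) :
    Phi μ v (Matrix.vecMul w (A δ s.1)) = (Phi μ v w).comp (AA (PP μ v) δ s) := by
  ext y
  rw [ContinuousLinearMap.comp_apply, Phi_apply, Phi_apply]
  have h1 : ∀ i, (AA (PP μ v) δ s y).1 i =
      ((1 - δ : ℝ) : ℂ) * y.1 i + ((δ : ℝ) : ℂ) * y.1 (s.1 i) := fun i => rfl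
  simp only [h1, Matrix.vecMul, dotProduct, A]
  push_cast
  calc ∑ l, (∑ i, (w i : ℂ) * ((1 - (δ : ℂ)) * (((if i = l then (1 : ℝ) else 0) : ℝ) : ℂ) +
        (δ : ℂ) * (((if s.1 i = l then (1 : ℝ) else 0) : ℝ) : ℂ))) * y.1 l
      = ∑ i, ∑ l, (w i : ℂ) * ((1 - (δ : ℂ)) * (((if i = l then (1 : ℝ) else 0) : ℝ) : ℂ) +
        (δ : ℂ) * (((if s.1 i = l then (1 : ℝ) else 0) : ℝ) : ℂ)) * y.1 l := by
        rw [Finset.sum_comm]
        exact Finset.sum_congr rfl fun l _ => Finset.sum_mul _ _ _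
    _ = ∑ i, (w i : ℂ) * ((1 - (δ : ℂ)) * y.1 i + (δ : ℂ) * y.1 (s.1 i)) := by
        refine Finset.sum_congr rfl fun i _ => ?_
        have h2 : ∀ l, (w i : ℂ) * ((1 - (δ : ℂ)) * (((if i = l then (1 : ℝ) else 0) : ℝ) : ℂ) +
            (δ : ℂ) * (((if s.1 i = l then (1 : ℝ) else 0) : ℝ) : ℂ)) * y.1 l =
            (if i = l then (w i : ℂ) * (1 - (δ : ℂ)) * y.1 l else 0) +
            (if s.1 i = l then (w i : ℂ) * (δ : ℂ) * y.1 l else 0) := by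
          intro l
          split_ifs <;> push_cast <;> ring
        simp only [h2, Finset.sum_add_distrib, Finset.sum_ite_eq, Finset.mem_univ, if_true]
        ring

theorem norm_Phi_sq (hv : ∑ i, v i = 0) (hd : 1 ≤ d) (w : Fin d → ℝ) :
    ‖Phi μ v w‖ ^ 2 ≤ d * ∑ l, (w l - 1 / (d : ℝ)) ^ 2 := by
  have h0 : ‖Phi μ v w‖ ≤ ∑ l, |w l - 1 / (d : ℝ)| := by
    refine ContinuousLinearMap.opNorm_le_bound _ (Finset.sum_nonneg fun _ _ => abs_nonneg _) ?_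
    intro y
    have hy := sum_zero_of_mem hv y.2
    have h1 : Phi μ v w y = ∑ l, (((w l - 1 / (d : ℝ) : ℝ)) : ℂ) * y.1 l := by
      rw [Phi_apply]
      have : ∑ l, (((w l - 1 / (d : ℝ) : ℝ)) : ℂ) * y.1 l =
          ∑ l, ((w l : ℝ) : ℂ) * y.1 l - ((1 / (d : ℝ) : ℝ) : ℂ) * ∑ l, y.1 l := by
        rw [Finset.mul_sum, ← Finset.sum_sub_distrib]
        refine Finset.sum_congr rfl fun l _ => ?_
        push_cast
        ring
      rw [this, hy, mul_zero, sub_zero]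
    rw [h1, Finset.sum_mul]
    refine (norm_sum_le _ _).trans (Finset.sum_le_sum fun l _ => ?_)
    rw [norm_mul, Complex.norm_real, Real.norm_eq_abs]
    exact mul_le_mul_of_nonneg_left (norm_le_pi_norm y.1 l) (abs_nonneg _)
  calc ‖Phi μ v w‖ ^ 2 ≤ (∑ l, |w l - 1 / (d : ℝ)|) ^ 2 :=
        pow_le_pow_left₀ (norm_nonneg (Phi μ v w)) h0 2
    _ ≤ (univ : Finset (Fin d)).card * ∑ l, |w l - 1 / (d : ℝ)| ^ 2 := sq_sum_le_card_mul_sum_sq
    _ = d * ∑ l, (w l - 1 / (d : ℝ)) ^ 2 := by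
        simp only [Finset.card_univ, Fintype.card_fin, sq_abs]

theorem sum_sub (hμ : IsProb μ) (g : Equiv.Perm (Fin d) → ℝ) :
    ∑ σ, μ σ * g σ = ∑ s : {σ : Equiv.Perm (Fin d) // 0 < μ σ}, μ s.1 * g s.1 := by
  classical
  rw [← Finset.sum_subtype (univ.filter fun σ => 0 < μ σ) (fun σ => by simp)
    (fun σ => μ σ * g σ)]
  rw [Finset.sum_filter]
  refine Finset.sum_congr rfl fun σ _ => ?_
  split_ifs with h
  · rfl
  · have : μ σ = 0 := le_antisymm (not_lt.1 h) (hμ.1 σ)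
    rw [this, zero_mul]

theorem sum_sub' (hμ : IsProb μ) (g : Equiv.Perm (Fin d) → ℂ) :
    ∑ σ, (μ σ : ℂ) * g σ =
      ∑ s : {σ : Equiv.Perm (Fin d) // 0 < μ σ}, (μ s.1 : ℂ) * g s.1 := by
  classical
  rw [← Finset.sum_subtype (univ.filter fun σ => 0 < μ σ) (fun σ => by simp)
    (fun σ => (μ σ : ℂ) * g σ)]
  rw [Finset.sum_filter]
  refine Finset.sum_congr rfl fun σ _ => ?_
  split_ifs with h
  · rfl
  · have : μ σ = 0 := le_antisymm (not_lt.1 h) (hμ.1 σ)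
    rw [this]
    simp

theorem KR_le (hμ : IsProb μ) (δ : ℝ) {f : (Fin d → ℝ) → ℝ} {g : (cycl μ v →L[ℂ] ℂ) → ℝ}
    (h : ∀ w, f w ≤ g (Phi μ v w)) (w : Fin d → ℝ) :
    KR μ δ f w ≤ KK (PP μ v) (fun s => μ s.1) δ g (Phi μ v w) := by
  unfold KR KK
  rw [sum_sub hμ]
  refine Finset.sum_le_sum fun s _ => mul_le_mul_of_nonneg_left ?_ s.2.le
  rw [← Phi_vecMul]
  exact h _

theorem KR_iterate_le (hμ : IsProb μ) (δ : ℝ) {f : (Fin d → ℝ) → ℝ}
    {g : (cycl μ v →L[ℂ] ℂ) → ℝ} (h : ∀ w, f w ≤ g (Phi μ v w)) (j : ℕ) (w : Fin d → ℝ) :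
    (KR μ δ)^[j] f w ≤ (KK (PP μ v) (fun s => μ s.1) δ)^[j] g (Phi μ v w) := by
  induction j generalizing w with
  | zero => exact h w
  | succ j ih =>
    rw [Function.iterate_succ_apply', Function.iterate_succ_apply']
    exact KR_le hμ δ ih w

theorem U_mulVec (μ : Equiv.Perm (Fin d) → ℝ) (x : Fin d → ℂ) (i : Fin d) :
    ((U μ).map (fun a => (a : ℂ))).mulVec x i = ∑ σ, (μ σ : ℂ) * x (σ i) := by
  simp only [Matrix.mulVec, dotProduct, Matrix.map_apply, U]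
  push_cast
  calc ∑ j, (∑ σ, (((if σ i = j then μ σ else 0) : ℝ) : ℂ)) * x j
      = ∑ σ, ∑ j, (((if σ i = j then μ σ else 0) : ℝ) : ℂ) * x j := by
        rw [Finset.sum_comm]
        exact Finset.sum_congr rfl fun l _ => Finset.sum_mul _ _ _
    _ = _ := by
        refine Finset.sum_congr rfl fun σ _ => ?_
        have h2 : ∀ j, (((if σ i = j then μ σ else 0) : ℝ) : ℂ) * x j =
            if σ i = j then (μ σ : ℂ) * x j else 0 := by
          intro j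
          split_ifs <;> simp
        simp only [h2, Finset.sum_ite_eq, Finset.mem_univ, if_true]

theorem UU_apply (hμ : IsProb μ) (x : cycl μ v) :
    (UU (PP μ v) (fun s => μ s.1) x).1 = ((U μ).map (fun a => (a : ℂ))).mulVec x.1 := by
  ext i
  rw [U_mulVec, sum_sub' hμ]
  unfold UU
  rw [_root_.sum_apply]
  have h1 : ∀ t : Finset {σ : Equiv.Perm (Fin d) // 0 < μ σ},
      (∑ s ∈ t, (((μ s.1 : ℝ) : ℂ) • PP μ v s) x).1 i =
        ∑ s ∈ t, (μ s.1 : ℂ) * x.1 (s.1 i) := by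
    intro t
    rw [Submodule.coe_sum, Finset.sum_apply]
    rfl
  exact h1 univ

theorem sys (hμ : IsProb μ) {z : ℂ} (hv0 : v ≠ 0) (hv : ∑ i, v i = 0)
    (hz : ((U μ).map (fun a => (a : ℂ))).mulVec v = z • v)
    (htop : ∀ (z' : ℂ) (v' : Fin d → ℂ), v' ≠ 0 → ∑ i, v' i = 0 →
      ((U μ).map (fun a => (a : ℂ))).mulVec v' = z' • v' → z'.re ≤ z.re) :
    Sys (PP μ v) (fun s => μ s.1) ⟨v, mem_cycl⟩ z := by
  refine ⟨?_, fun s => s.2, ?_, ?_, ?_, ?_, ?_⟩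
  · intro s
    exact LinearMap.mkContinuous_norm_le _ zero_le_one _
  · have := sum_sub hμ (fun _ => 1)
    simp only [mul_one] at this
    rw [← this]
    exact hμ.2
  · intro h
    exact hv0 (congrArg Subtype.val h)
  · apply Subtype.ext
    rw [UU_apply hμ]
    exact hz
  · intro z' x hx h
    refine htop z' x.1 (fun h0 => hx (Subtype.ext h0)) (sum_zero_of_mem hv x.2) ?_
    rw [← UU_apply hμ, h]
    rfl
  · intro S hvS hS
    rw [eq_top_iff]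
    intro x _
    have hle : cycl μ v ≤ S.map (cycl μ v).subtype := by
      refine cycl_le ?_ ?_
      · exact ⟨⟨v, mem_cycl⟩, hvS, rfl⟩
      · rintro σ hσ y ⟨y', hy', rfl⟩
        exact ⟨PP μ v ⟨σ, hσ⟩ y', hS ⟨σ, hσ⟩ y' hy', rfl⟩
    obtain ⟨x', hx', hxx⟩ := hle x.2
    have : x' = x := Subtype.ext hxx
    rw [← this]
    exact hx'

end Cyc

theorem bk_rpc (h1 : S_RP) (h2 : S_GAP) : S_RPC := by
  classical
  intro d μ hd hμ hI
  obtain ⟨_, z, v, hv0, hv, hz, hgap, htop⟩ := h2 d μ hd hμ hI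
  obtain ⟨j0, hj0⟩ : ∃ j0, v j0 ≠ 0 := by
    by_contra hcon
    push Not at hcon
    exact hv0 (funext hcon)
  have hsys := sys hμ hv0 hv hz htop
  have hw0 : Phi μ v (Pi.single j0 1) ⟨v, mem_cycl⟩ ≠ 0 := by
    rw [Phi_apply]
    have : ∑ l, (((Pi.single j0 (1 : ℝ) : Fin d → ℝ) l : ℝ) : ℂ) * v l = v j0 := by
      rw [Finset.sum_eq_single j0]
      · simp
      · intro b _ hb
        simp [Pi.single_eq_of_ne hb]
      · intro h
        exact absurd (Finset.mem_univ _) h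
    rw [this]
    exact hj0
  refine ⟨j0, fun ε hε => ?_⟩
  obtain ⟨δ0, C0, hδ0, hmain⟩ := h1 (cycl μ v) {σ : Equiv.Perm (Fin d) // 0 < μ σ} (PP μ v)
    (fun s => μ s.1) ⟨v, mem_cycl⟩ z hsys (Phi μ v (Pi.single j0 1)) hw0 ε hε
  refine ⟨δ0, 2 * C0 + Real.log d, hδ0, fun δ hδ hδ' j => ?_⟩
  refine le_trans (KR_iterate_le (v := v) hμ δ ?_ j _) (hmain δ hδ hδ' j)
  intro w
  by_cases hw : ∑ l, (w l - 1 / (d : ℝ)) ^ 2 <
      Real.exp (-2 * (gap μ + ε) * δ * j - (2 * C0 + Real.log d))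
  · have hd0 : (0 : ℝ) < d := by exact_mod_cast (by omega : 0 < d)
    have h3 : ‖Phi μ v w‖ < Real.exp (-(1 - z.re + ε) * δ * j - C0) := by
      refine lt_of_pow_lt_pow_left₀ 2 (Real.exp_pos _).le ?_
      calc ‖Phi μ v w‖ ^ 2 ≤ d * ∑ l, (w l - 1 / (d : ℝ)) ^ 2 := norm_Phi_sq hv (by omega) w
        _ < d * Real.exp (-2 * (gap μ + ε) * δ * j - (2 * C0 + Real.log d)) :=
            mul_lt_mul_of_pos_left hw hd0
        _ = Real.exp (-(1 - z.re + ε) * δ * j - C0) ^ 2 := by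
            rw [← Real.exp_nat_mul]
            nth_rewrite 1 [← Real.exp_log hd0]
            rw [← Real.exp_add, hgap]
            congr 1
            push_cast
            ring
    rw [if_pos hw, if_pos h3]
  · rw [if_neg hw]
    split_ifs <;> norm_num

end Pool.Agent.H710
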