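import Mathlib

set_option autoImplicit false
set_option linter.unusedSectionVars false

/-!
Core of the convergence proof for the clamped averaging rule on a ring in the asynchronous model.
Positions are lifted to the universal cover of the ring.
-/

namespace Pool.Agent.H710.RingCore

open Set

/-- the clamp to the interval `[β, V]` -/
noncomputable def phi (β V z : ℝ) : ℝ := max β (min z V)

theorem phi_mono (β V : ℝ) {y z : ℝ} (h : y ≤ z) : phi β V y ≤ phi β V z :=
  max_le_max le_rfl (min_le_min h le_rfl)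

theorem phi_lip (β V : ℝ) {y z : ℝ} (h : y ≤ z) : phi β V z ≤ phi β V y + (z - y) := by
  unfold phi
  apply max_le
  · have := le_max_left β (min y V)
    linarith
  · have h1 : min z V ≤ min y V + (z - y) := by
      rcases le_total y V with h2 | h2
      · rw [min_eq_left h2]
        have := min_le_left z V
        linarith
      · rw [min_eq_right h2]
        have := min_le_right z V
        linarith
    have := le_max_right β (min y V)
    linarith

theorem le_phi (β V z : ℝ) : β ≤ phi β V z := le_max_left _ _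

theorem phi_le {β V : ℝ} (h : β ≤ V) (z : ℝ) : phi β V z ≤ V :=
  max_le h (min_le_right _ _)

theorem phi_eq {β V z : ℝ} (h1 : β ≤ z) (h2 : z ≤ V) : phi β V z = z := by
  unfold phi
  rw [min_eq_left h2, max_eq_right h1]

theorem phi_le_max (β V z : ℝ) : phi β V z ≤ max β z := max_le_max le_rfl (min_le_left _ _)

/-- the target of a sensor at `x` with left neighbour at `a` and right neighbour at `b` -/
noncomputable def F (c β V a x b : ℝ) : ℝ := x + c * (phi β V (b - x) - phi β V (x - a))

theorem F_mono {c β V a x b a' x' b' : ℝ} (hc0 : 0 ≤ c) (hc : c ≤ 1 / 2) (ha : a ≤ a')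
    (hx : x ≤ x') (hb : b ≤ b') : F c β V a x b ≤ F c β V a' x' b' := by
  unfold F
  have h1 : phi β V (b - x) ≤ phi β V (b' - x') + (x' - x) := by
    have h2 : phi β V (b - x) ≤ phi β V (b' - x) := phi_mono _ _ (by linarith)
    have h3 := phi_lip β V (y := b' - x') (z := b' - x) (by linarith)
    linarith
  have h2 : phi β V (x' - a') ≤ phi β V (x - a) + (x' - x) := by
    have h2 : phi β V (x' - a') ≤ phi β V (x' - a) := phi_mono _ _ (by linarith)
    have h3 := phi_lip β V (y := x - a) (z := x' - a) (by linarith)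
    linarith
  nlinarith

/-- the weights -/
noncomputable def wt (n l : ℝ) : ℝ := 2 * n ^ 2 + l * (2 * n - l)

theorem upper {c β V θ G n k : ℝ} (hc0 : 0 ≤ c) (hc : c ≤ 1 / 2) (hG : 0 ≤ G) (hβ : β ≤ θ)
    (hGV : G * (2 * n) ≤ V - θ) (hk0 : 0 ≤ k) (hk : k + 2 ≤ n) {r a x b : ℝ}
    (ha : a ≤ r + θ * k + G * wt n k)
    (hx : x ≤ r + θ * (k + 1) + G * wt n (k + 1))
    (hb : b ≤ r + θ * (k + 2) + G * wt n (k + 2)) :
    F c β V a x b ≤ r + θ * (k + 1) + G * wt n (k + 1) - 2 * c * G := by
  refine (F_mono hc0 hc ha hx hb).trans ?_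
  have h1 : r + θ * (k + 2) + G * wt n (k + 2) - (r + θ * (k + 1) + G * wt n (k + 1)) =
      θ + G * (2 * n - 2 * k - 3) := by unfold wt; ring
  have h2 : r + θ * (k + 1) + G * wt n (k + 1) - (r + θ * k + G * wt n k) =
      θ + G * (2 * n - 2 * k - 1) := by unfold wt; ring
  unfold F
  rw [h1, h2, phi_eq, phi_eq]
  · apply le_of_eq; ring
  · nlinarith
  · nlinarith
  · nlinarith
  · nlinarith

theorem lower {c β V θ G n k : ℝ} (hc0 : 0 ≤ c) (hc : c ≤ 1 / 2) (hG : 0 ≤ G) (hβ : β ≤ θ)
    (hGV : G * (2 * n) ≤ V - θ) (hk0 : 0 ≤ k) (hk : k + 2 ≤ n) {r a x b : ℝ}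
    (hb : r - θ * k - G * wt n k ≤ b)
    (hx : r - θ * (k + 1) - G * wt n (k + 1) ≤ x)
    (ha : r - θ * (k + 2) - G * wt n (k + 2) ≤ a) :
    r - θ * (k + 1) - G * wt n (k + 1) + 2 * c * G ≤ F c β V a x b := by
  refine le_trans ?_ (F_mono hc0 hc ha hx hb)
  have h1 : r - θ * k - G * wt n k - (r - θ * (k + 1) - G * wt n (k + 1)) =
      θ + G * (2 * n - 2 * k - 1) := by unfold wt; ring
  have h2 : r - θ * (k + 1) - G * wt n (k + 1) - (r - θ * (k + 2) - G * wt n (k + 2)) =
      θ + G * (2 * n - 2 * k - 3) := by unfold wt; ring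
  unfold F
  rw [h1, h2, phi_eq, phi_eq]
  · apply le_of_eq; ring
  · nlinarith
  · nlinarith
  · nlinarith
  · nlinarith

/-- induction along a locally finite set of event times -/
theorem time_induction {E : Set ℝ} {t₀ : ℝ} (hE : ∀ t, (E ∩ Ico t₀ t).Finite) (Q : ℝ → Prop)
    (h0 : Q t₀)
    (hs : ∀ τ t, t₀ ≤ τ → τ < t → (∀ e ∈ E, e < t → e ≤ τ) → Q τ → Q t) :
    ∀ t, t₀ ≤ t → Q t := by
  have key : ∀ m : ℕ, ∀ t, t₀ ≤ t → (hE t).toFinset.card = m → Q t := by
    intro m
    induction m using Nat.strong_induction_on with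
    | _ m ih =>
      intro t ht hm
      rcases ht.eq_or_lt with h | hlt
      · rw [← h]; exact h0
      by_cases hne : (hE t).toFinset.Nonempty
      · obtain ⟨τ, hτ, hmax⟩ := Finset.exists_max_image _ id hne
        simp only [id] at hmax
        have hτ' := hτ
        rw [Set.Finite.mem_toFinset] at hτ'
        obtain ⟨hτE, hτ0, hτt⟩ := hτ'
        have hsub : (hE τ).toFinset ⊂ (hE t).toFinset := by
          rw [Finset.ssubset_iff_of_subset]
          · refine ⟨τ, hτ, ?_⟩
            rw [Set.Finite.mem_toFinset]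
            rintro ⟨-, -, h⟩
            exact lt_irrefl _ h
          · intro y hy
            rw [Set.Finite.mem_toFinset] at hy ⊢
            exact ⟨hy.1, hy.2.1, hy.2.2.trans hτt⟩
        have hQ : Q τ := ih _ (by rw [← hm]; exact Finset.card_lt_card hsub) τ hτ0 rfl
        refine hs τ t hτ0 hτt ?_ hQ
        intro e he het
        rcases lt_or_ge e t₀ with h | h
        · exact h.le.trans hτ0
        · apply hmax
          rw [Set.Finite.mem_toFinset]
          exact ⟨he, h, het⟩
      · refine hs t₀ t le_rfl hlt ?_ h0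
        intro e he het
        by_contra hcon
        push Not at hcon
        apply hne
        refine ⟨e, ?_⟩
        rw [Set.Finite.mem_toFinset]
        exact ⟨he, hcon.le, het⟩
  intro t ht
  exact key _ t ht rfl

theorem F_abs_le {c β V a x b : ℝ} (hc : 0 ≤ c) (hβ : 0 ≤ β) (hβV : β ≤ V) :
    |F c β V a x b - x| ≤ c * V := by
  unfold F
  have h1 := le_phi β V (b - x)
  have h2 := le_phi β V (x - a)
  have h3 := phi_le hβV (b - x)
  have h4 := phi_le hβV (x - a)
  rw [abs_le]
  constructor <;> nlinarith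

theorem lt_of_F_gt {c β V a x b : ℝ} (hc : 0 ≤ c) (h : x < F c β V a x b) : β < b - x := by
  by_contra hcon
  push Not at hcon
  unfold F at h
  have h1 := phi_le_max β V (b - x)
  rw [max_eq_left hcon] at h1
  have h2 := le_phi β V (x - a)
  nlinarith

theorem lt_of_F_lt {c β V a x b : ℝ} (hc : 0 ≤ c) (h : F c β V a x b < x) : β < x - a := by
  by_contra hcon
  push Not at hcon
  unfold F at h
  have h1 := phi_le_max β V (x - a)
  rw [max_eq_left hcon] at h1
  have h2 := le_phi β V (b - x)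
  nlinarith

/-- A run of the asynchronous system, with all positions lifted to the real line. -/
structure Sys (n : ℕ) (L V c δ : ℝ) (X : ℤ → ℝ → ℝ) (look fin T : ℤ → ℕ → ℝ) : Prop where
  n2 : 2 ≤ n
  Lpos : 0 < L
  Vpos : 0 < V
  cpos : 0 < c
  c_le : c ≤ 1 / 8
  δpos : 0 < δ
  hV : 2 * (L / n) ≤ V
  X_per : ∀ i t, X (i + n) t = X i t + L
  look_per : ∀ i k, look (i + n) k = look i k
  fin_per : ∀ i k, fin (i + n) k = fin i k
  T_per : ∀ i k, T (i + n) k = T i k + L
  look0 : ∀ i, 0 ≤ look i 0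
  look_lt : ∀ i k, look i k < fin i k
  fin_le : ∀ i k, fin i k ≤ look i (k + 1)
  unb : ∀ i t, ∃ k, t ≤ look i k
  idle0 : ∀ i t, 0 ≤ t → t ≤ look i 0 → X i t = X i 0
  idle : ∀ i k t, fin i k ≤ t → t ≤ look i (k + 1) → X i t = X i (fin i k)
  move : ∀ i k t, look i k ≤ t → t ≤ fin i k → X i t ∈ uIcc (X i (look i k)) (T i k)
  arrive : ∀ i k, min δ |T i k - X i (look i k)| ≤ |X i (fin i k) - X i (look i k)|
  target : ∀ i k, (∀ j, X j (look i k) < X (j + 1) (look i k)) →
    T i k = F c (4 * c * V) V (X (i - 1) (look i k)) (X i (look i k)) (X (i + 1) (look i k))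
  init : ∀ j, X j 0 < X (j + 1) 0

namespace Sys

variable {n : ℕ} {L V c δ : ℝ} {X : ℤ → ℝ → ℝ} {look fin T : ℤ → ℕ → ℝ}

section events

variable (S : Sys n L V c δ X look fin T)
include S

theorem look_lt_look (i : ℤ) (k : ℕ) : look i k < look i (k + 1) :=
  (S.look_lt i k).trans_le (S.fin_le i k)

theorem look_strictMono (i : ℤ) : StrictMono (look i) := strictMono_nat_of_lt_succ (S.look_lt_look i)

theorem fin_lt_fin (i : ℤ) (k : ℕ) : fin i k < fin i (k + 1) :=
  (S.fin_le i k).trans_lt (S.look_lt i (k + 1))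

theorem fin_strictMono (i : ℤ) : StrictMono (fin i) := strictMono_nat_of_lt_succ (S.fin_lt_fin i)

theorem exists_fin (i : ℤ) (t : ℝ) : ∃ m, t ≤ fin i m := by
  obtain ⟨k, hk⟩ := S.unb i t
  exact ⟨k, hk.trans (S.look_lt i k).le⟩

theorem look_nonneg (i : ℤ) (k : ℕ) : 0 ≤ look i k :=
  (S.look0 i).trans ((S.look_strictMono i).monotone (Nat.zero_le k))

theorem npos : (0 : ℝ) < n := by
  have := S.n2
  exact_mod_cast (by omega : 0 < n)

/-- periodicity reduces to the indices `0, …, n - 1` -/
theorem per_ind {p : ℤ → Prop} (hp : ∀ i, p (i + n) ↔ p i) (h : ∀ i : ℤ, 0 ≤ i → i < (n : ℤ) → p i) :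
    ∀ i, p i := by
  have hn : (0 : ℤ) < n := by
    have := S.n2
    omega
  have h1 : ∀ (m : ℕ) (i : ℤ), p (i + m * n) ↔ p i := by
    intro m
    induction m with
    | zero => intro i; simp
    | succ m ih =>
      intro i
      have : i + ((m + 1 : ℕ) : ℤ) * n = (i + m * n) + n := by push_cast; ring
      rw [this, hp, ih]
  have h2 : ∀ (q i : ℤ), p (i + q * n) ↔ p i := by
    intro q i
    obtain ⟨m, hm | hm⟩ := Int.eq_nat_or_neg q
    · rw [hm]; exact h1 m i
    · have := h1 m (i + q * n)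
      rw [← this, hm]
      have : i + -(m : ℤ) * n + m * n = i := by ring
      rw [this]
  intro i
  have := h2 (i / n) (i % n)
  rw [Int.emod_add_ediv_mul] at this
  rw [this]
  exact h _ (Int.emod_nonneg _ hn.ne') (Int.emod_lt_of_pos _ hn)

/-- the set of event times -/
theorem events_finite (t₀ t : ℝ) :
    ({e | ∃ i k, e = look i k ∨ e = fin i k} ∩ Ico t₀ t).Finite := by
  have h1 : ∀ i, ({e | ∃ k, e = look i k ∨ e = fin i k} ∩ Ico t₀ t).Finite := by
    intro i
    obtain ⟨K, hK⟩ := S.unb i t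
    apply Set.Finite.subset (((Finset.range K).image (look i) ∪ (Finset.range K).image (fin i)).finite_toSet)
    rintro e ⟨⟨k, hk⟩, -, het⟩
    have hkK : k < K := by
      by_contra hcon
      push Not at hcon
      have h2 := (S.look_strictMono i).monotone hcon
      have h3 := S.look_lt i k
      rcases hk with hk | hk <;> linarith
    simp only [Finset.coe_union, Finset.coe_image, Finset.coe_range, Set.mem_union, Set.mem_image,
      Set.mem_Iio]
    rcases hk with hk | hk
    · exact Or.inl ⟨k, hkK, hk.symm⟩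
    · exact Or.inr ⟨k, hkK, hk.symm⟩
  have h2 : ({e | ∃ i k, e = look i k ∨ e = fin i k} ∩ Ico t₀ t) ⊆
      ⋃ i ∈ (Finset.Ico (0 : ℤ) n), ({e | ∃ k, e = look i k ∨ e = fin i k} ∩ Ico t₀ t) := by
    rintro e ⟨⟨i, k, hk⟩, he⟩
    have h3 : ∀ i, (∃ k, e = look i k ∨ e = fin i k) →
        ∃ j, 0 ≤ j ∧ j < (n : ℤ) ∧ ∃ k, e = look j k ∨ e = fin j k := by
      apply S.per_ind (p := fun i => (∃ k, e = look i k ∨ e = fin i k) →
        ∃ j, 0 ≤ j ∧ j < (n : ℤ) ∧ ∃ k, e = look j k ∨ e = fin j k)
      · intro i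
        simp only [S.look_per, S.fin_per]
      · intro i hi0 hi h
        exact ⟨i, hi0, hi, h⟩
    obtain ⟨j, hj0, hj, h⟩ := h3 i ⟨k, hk⟩
    simp only [Set.mem_iUnion]
    exact ⟨j, Finset.mem_Ico.2 ⟨hj0, hj⟩, h, he⟩
  refine Set.Finite.subset ?_ h2
  exact Set.Finite.biUnion (Finset.finite_toSet _) (fun i _ => h1 i)

end events

open Classical in
/-- the index of the cycle of sensor `i` current at time `t`: the first cycle that is not finished
strictly before `t` -/
noncomputable def cyc (fin : ℤ → ℕ → ℝ) (i : ℤ) (t : ℝ) : ℕ :=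
  if h : ∃ m, t ≤ fin i m then Nat.find h else 0

/-- the base position -/
noncomputable def P (X : ℤ → ℝ → ℝ) (look fin : ℤ → ℕ → ℝ) (i : ℤ) (t : ℝ) : ℝ :=
  X i (look i (cyc fin i t))

open Classical in
/-- the current target -/
noncomputable def Tg (X : ℤ → ℝ → ℝ) (look fin T : ℤ → ℕ → ℝ) (i : ℤ) (t : ℝ) : ℝ :=
  if look i (cyc fin i t) < t then T i (cyc fin i t) else P X look fin i t

section state

variable (S : Sys n L V c δ X look fin T)
include S

theorem cyc_spec (i : ℤ) (t : ℝ) : t ≤ fin i (cyc fin i t) := by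
  classical
  unfold cyc
  rw [dif_pos (S.exists_fin i t)]
  exact Nat.find_spec (S.exists_fin i t)

theorem cyc_min {i : ℤ} {t : ℝ} {m : ℕ} (h : m < cyc fin i t) : fin i m < t := by
  classical
  unfold cyc at h
  rw [dif_pos (S.exists_fin i t)] at h
  exact lt_of_not_ge (Nat.find_min (S.exists_fin i t) h)

theorem cyc_eq {i : ℤ} {t : ℝ} {m : ℕ} (h1 : t ≤ fin i m) (h2 : ∀ k, m = k + 1 → fin i k < t) :
    cyc fin i t = m := by
  apply le_antisymm
  · by_contra hcon
    push Not at hcon
    exact absurd (S.cyc_min hcon) (not_lt.2 h1)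
  · by_contra hcon
    push Not at hcon
    obtain ⟨k, rfl⟩ : ∃ k, m = k + 1 := ⟨m - 1, by omega⟩
    have h3 := h2 k rfl
    have h4 := S.cyc_spec i t
    have h5 := (S.fin_strictMono i).monotone (by omega : cyc fin i t ≤ k)
    linarith

theorem cyc_per (i : ℤ) (t : ℝ) : cyc fin (i + n) t = cyc fin i t := by
  apply S.cyc_eq
  · rw [S.fin_per]; exact S.cyc_spec i t
  · intro k hk
    rw [S.fin_per]
    exact S.cyc_min (by omega)

theorem P_per (i : ℤ) (t : ℝ) : P X look fin (i + n) t = P X look fin i t + L := by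
  unfold P
  rw [S.cyc_per, S.look_per, S.X_per]

theorem Tg_per (i : ℤ) (t : ℝ) : Tg X look fin T (i + n) t = Tg X look fin T i t + L := by
  unfold Tg
  rw [S.cyc_per, S.look_per, S.P_per, S.T_per]
  split_ifs <;> rfl

/-- before the look of the current cycle the sensor is at its base position -/
theorem X_eq_P {i : ℤ} {t : ℝ} (ht : 0 ≤ t) (h : t ≤ look i (cyc fin i t)) :
    X i t = P X look fin i t := by
  unfold P
  rcases hm : cyc fin i t with _ | m
  · rw [hm] at h
    rw [S.idle0 i t ht h, S.idle0 i _ (ht.trans h) le_rfl]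
  · rw [hm] at h
    have h1 : fin i m < t := S.cyc_min (by omega)
    rw [S.idle i m t h1.le h, S.idle i m _ (S.fin_le i m) le_rfl]

theorem hull {i : ℤ} {t : ℝ} (ht : 0 ≤ t) :
    X i t ∈ uIcc (P X look fin i t) (Tg X look fin T i t) := by
  by_cases h : look i (cyc fin i t) < t
  · unfold Tg
    rw [if_pos h]
    exact S.move i _ t h.le (S.cyc_spec i t)
  · rw [S.X_eq_P ht (not_lt.1 h)]
    exact left_mem_uIcc

/-- the possible changes between two times with no event strictly in between -/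
theorem step {τ t : ℝ} (hτ : 0 ≤ τ) (hlt : τ < t)
    (hev : ∀ e ∈ {e | ∃ i k, e = look i k ∨ e = fin i k}, e < t → e ≤ τ) (i : ℤ) :
    (cyc fin i t = cyc fin i τ ∧ P X look fin i t = P X look fin i τ ∧
      Tg X look fin T i t = Tg X look fin T i τ ∧
      (look i (cyc fin i t) < t → look i (cyc fin i τ) < τ)) ∨
    (cyc fin i t = cyc fin i τ ∧ look i (cyc fin i t) = τ ∧
      P X look fin i t = P X look fin i τ ∧ P X look fin i t = X i τ ∧
      Tg X look fin T i t = T i (cyc fin i t)) ∨
    (cyc fin i t = cyc fin i τ + 1 ∧ look i (cyc fin i τ) < τ ∧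
      P X look fin i t = X i τ ∧ 
      min δ |Tg X look fin T i τ - P X look fin i τ| ≤ |X i τ - P X look fin i τ| ∧
      ((Tg X look fin T i t = X i τ ∧ ¬ look i (cyc fin i t) < t) ∨
        (look i (cyc fin i t) = τ ∧ Tg X look fin T i t = T i (cyc fin i t)))) := by
  have hL : ∀ k, look i k < t → look i k ≤ τ := fun k h => hev _ ⟨i, k, Or.inl rfl⟩ h
  have hF : ∀ k, fin i k < t → fin i k ≤ τ := fun k h => hev _ ⟨i, k, Or.inr rfl⟩ h
  rcases (S.cyc_spec i τ).eq_or_lt with hfin | hfin
  · -- the sensor finishes at time `τ`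
    right; right
    have hc : cyc fin i t = cyc fin i τ + 1 := by
      apply S.cyc_eq
      · by_contra hcon
        push Not at hcon
        have h1 := hF _ hcon
        have h2 := S.fin_lt_fin i (cyc fin i τ)
        linarith
      · intro k hk
        have : k = cyc fin i τ := by omega
        rw [this, ← hfin]
        exact hlt
    have hlookτ : look i (cyc fin i τ) < τ := by
      have := S.look_lt i (cyc fin i τ)
      linarith
    have hP : P X look fin i t = X i τ := by
      unfold P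
      rw [hc, S.idle i (cyc fin i τ) _ (S.fin_le i _) le_rfl, ← hfin]
    refine ⟨hc, hlookτ, hP, ?_, ?_⟩
    · have h1 : Tg X look fin T i τ = T i (cyc fin i τ) := by
        unfold Tg
        rw [if_pos hlookτ]
      rw [h1]
      have h2 := S.arrive i (cyc fin i τ)
      rw [← hfin] at h2
      exact h2
    · by_cases h3 : look i (cyc fin i t) < t
      · right
        have h4 := hL _ h3
        have h5 := S.fin_le i (cyc fin i τ)
        rw [← hfin, ← hc] at h5
        refine ⟨le_antisymm h4 h5, ?_⟩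
        unfold Tg
        rw [if_pos h3]
      · left
        refine ⟨?_, h3⟩
        unfold Tg
        rw [if_neg h3, hP]
  · have hc : cyc fin i t = cyc fin i τ := by
      apply S.cyc_eq
      · by_contra hcon
        push Not at hcon
        have := hF _ hcon
        linarith
      · intro k hk
        exact (S.cyc_min (by omega)).trans hlt
    have hP : P X look fin i t = P X look fin i τ := by
      unfold P
      rw [hc]
    rcases lt_trichotomy (look i (cyc fin i τ)) τ with h1 | h1 | h1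
    · left
      refine ⟨hc, hP, ?_, fun _ => h1⟩
      unfold Tg
      rw [hc, if_pos (h1.trans hlt), if_pos h1]
    · right; left
      refine ⟨hc, by rw [hc]; exact h1, hP, ?_, ?_⟩
      · rw [hP]
        exact (S.X_eq_P hτ h1.ge).symm
      · unfold Tg
        rw [hc, if_pos (by rw [h1]; exact hlt)]
    · left
      have h2 : ¬ look i (cyc fin i τ) < t := by
        intro h
        have := hL _ h
        linarith
      refine ⟨hc, hP, ?_, ?_⟩
      · unfold Tg
        rw [hc, if_neg h2, if_neg h1.le.not_gt, hP]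
      · intro h
        rw [hc] at h
        exact absurd h h2

end state

/-- upper end of the interval of current positions and targets -/
noncomputable def hi (X : ℤ → ℝ → ℝ) (look fin T : ℤ → ℕ → ℝ) (i : ℤ) (t : ℝ) : ℝ :=
  max (P X look fin i t) (Tg X look fin T i t)

/-- lower end of the interval of current positions and targets -/
noncomputable def lo (X : ℤ → ℝ → ℝ) (look fin T : ℤ → ℕ → ℝ) (i : ℤ) (t : ℝ) : ℝ :=
  min (P X look fin i t) (Tg X look fin T i t)

/-- the rule applied to the positions at time `t` -/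
noncomputable def Fx (c V : ℝ) (X : ℤ → ℝ → ℝ) (i : ℤ) (t : ℝ) : ℝ :=
  F c (4 * c * V) V (X (i - 1) t) (X i t) (X (i + 1) t)

section nocol

variable (S : Sys n L V c δ X look fin T)
include S

theorem hi_per (i : ℤ) (t : ℝ) : hi X look fin T (i + n) t = hi X look fin T i t + L := by
  unfold hi
  rw [S.P_per, S.Tg_per, max_add_add_right]

theorem lo_per (i : ℤ) (t : ℝ) : lo X look fin T (i + n) t = lo X look fin T i t + L := by
  unfold lo
  rw [S.P_per, S.Tg_per, min_add_add_right]

theorem X_le_hi {i : ℤ} {t : ℝ} (ht : 0 ≤ t) : X i t ≤ hi X look fin T i t :=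
  (S.hull ht).2

theorem lo_le_X {i : ℤ} {t : ℝ} (ht : 0 ≤ t) : lo X look fin T i t ≤ X i t :=
  (S.hull ht).1

theorem beta_pos : 0 < 4 * c * V := by
  have := S.cpos
  have := S.Vpos
  positivity

theorem beta_le : 4 * c * V ≤ V / 2 := by
  have := S.c_le
  have := S.Vpos
  nlinarith

/-- the changes of state, with the targets expressed by the rule -/
theorem step' {τ t : ℝ} (hτ : 0 ≤ τ) (hlt : τ < t)
    (hev : ∀ e ∈ {e | ∃ i k, e = look i k ∨ e = fin i k}, e < t → e ≤ τ)
    (hord : ∀ j, X j τ < X (j + 1) τ) (i : ℤ) :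
    (cyc fin i t = cyc fin i τ ∧ P X look fin i t = P X look fin i τ ∧
      Tg X look fin T i t = Tg X look fin T i τ ∧
      (look i (cyc fin i t) < t → look i (cyc fin i τ) < τ)) ∨
    (cyc fin i t = cyc fin i τ ∧ look i (cyc fin i t) = τ ∧
      P X look fin i t = P X look fin i τ ∧ P X look fin i t = X i τ ∧
      Tg X look fin T i t = Fx c V X i τ) ∨
    (cyc fin i t = cyc fin i τ + 1 ∧ look i (cyc fin i τ) < τ ∧
      P X look fin i t = X i τ ∧
      min δ |Tg X look fin T i τ - P X look fin i τ| ≤ |X i τ - P X look fin i τ| ∧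
      ((Tg X look fin T i t = X i τ ∧ ¬ look i (cyc fin i t) < t) ∨
        (look i (cyc fin i t) = τ ∧ Tg X look fin T i t = Fx c V X i τ))) := by
  have hT : ∀ k, look i k = τ → T i k = Fx c V X i τ := by
    intro k hk
    have := S.target i k (by rw [hk]; exact hord)
    rw [hk] at this
    exact this
  rcases S.step hτ hlt hev i with h | h | h
  · exact Or.inl h
  · right; left
    obtain ⟨h1, h2, h3, h4, h5⟩ := h
    exact ⟨h1, h2, h3, h4, by rw [h5, hT _ h2]⟩
  · right; right
    obtain ⟨h1, h2, h3, h4, h5⟩ := h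
    refine ⟨h1, h2, h3, h4, ?_⟩
    rcases h5 with h5 | ⟨h5, h6⟩
    · exact Or.inl h5
    · exact Or.inr ⟨h5, by rw [h6, hT _ h5]⟩

theorem hi_step {τ t : ℝ} (hτ : 0 ≤ τ) (hlt : τ < t)
    (hev : ∀ e ∈ {e | ∃ i k, e = look i k ∨ e = fin i k}, e < t → e ≤ τ)
    (hord : ∀ j, X j τ < X (j + 1) τ) (i : ℤ) :
    hi X look fin T i t ≤ max (hi X look fin T i τ) (Fx c V X i τ) := by
  have hX := S.X_le_hi (i := i) hτ
  have hP : P X look fin i τ ≤ hi X look fin T i τ := le_max_left _ _
  have hTg : Tg X look fin T i τ ≤ hi X look fin T i τ := le_max_right _ _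
  have h1 := le_max_left (hi X look fin T i τ) (Fx c V X i τ)
  have h2 := le_max_right (hi X look fin T i τ) (Fx c V X i τ)
  rw [show hi X look fin T i t = max (P X look fin i t) (Tg X look fin T i t) from rfl]
  rcases S.step' hτ hlt hev hord i with h | h | h
  · obtain ⟨-, h3, h4, -⟩ := h
    rw [h3, h4]
    exact max_le (by linarith) (by linarith)
  · obtain ⟨-, -, h3, -, h4⟩ := h
    rw [h3, h4]
    exact max_le (by linarith) (by linarith)
  · obtain ⟨-, -, h3, -, (⟨h4, -⟩ | ⟨-, h4⟩)⟩ := h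
    · rw [h3, h4]
      exact max_le (by linarith) (by linarith)
    · rw [h3, h4]
      exact max_le (by linarith) (by linarith)

theorem lo_step {τ t : ℝ} (hτ : 0 ≤ τ) (hlt : τ < t)
    (hev : ∀ e ∈ {e | ∃ i k, e = look i k ∨ e = fin i k}, e < t → e ≤ τ)
    (hord : ∀ j, X j τ < X (j + 1) τ) (i : ℤ) :
    min (lo X look fin T i τ) (Fx c V X i τ) ≤ lo X look fin T i t := by
  have hX := S.lo_le_X (i := i) hτ
  have hP : lo X look fin T i τ ≤ P X look fin i τ := min_le_left _ _
  have hTg : lo X look fin T i τ ≤ Tg X look fin T i τ := min_le_right _ _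
  have h1 := min_le_left (lo X look fin T i τ) (Fx c V X i τ)
  have h2 := min_le_right (lo X look fin T i τ) (Fx c V X i τ)
  rw [show lo X look fin T i t = min (P X look fin i t) (Tg X look fin T i t) from rfl]
  rcases S.step' hτ hlt hev hord i with h | h | h
  · obtain ⟨-, h3, h4, -⟩ := h
    rw [h3, h4]
    exact le_min (by linarith) (by linarith)
  · obtain ⟨-, -, h3, -, h4⟩ := h
    rw [h3, h4]
    exact le_min (by linarith) (by linarith)
  · obtain ⟨-, -, h3, -, (⟨h4, -⟩ | ⟨-, h4⟩)⟩ := h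
    · rw [h3, h4]
      exact le_min (by linarith) (by linarith)
    · rw [h3, h4]
      exact le_min (by linarith) (by linarith)

theorem Fx_abs_le (i : ℤ) (t : ℝ) : |Fx c V X i t - X i t| ≤ c * V := by
  have h1 := S.beta_pos
  have h2 := S.beta_le
  have h3 := S.Vpos
  exact F_abs_le S.cpos.le h1.le (by linarith)

/-- no two intervals of neighbouring sensors come near each other, and all intervals are short -/
def NC (V c : ℝ) (X : ℤ → ℝ → ℝ) (look fin T : ℤ → ℕ → ℝ) (μ t : ℝ) : Prop :=
  ∀ i, μ ≤ lo X look fin T (i + 1) t - hi X look fin T i t ∧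
    |Tg X look fin T i t - P X look fin i t| ≤ c * V

omit S in
theorem hi_sub_lo (i : ℤ) (t : ℝ) : hi X look fin T i t - lo X look fin T i t =
    |Tg X look fin T i t - P X look fin i t| := by
  unfold hi lo
  rw [max_sub_min_eq_abs]

theorem order_of_NC {μ t : ℝ} (hμ : 0 < μ) (ht : 0 ≤ t) (h : NC V c X look fin T μ t) (j : ℤ) :
    X j t < X (j + 1) t := by
  have h1 := S.X_le_hi (i := j) ht
  have h2 := S.lo_le_X (i := j + 1) ht
  have h3 := (h j).1
  linarith

theorem NC_step {μ τ t : ℝ} (hμ : 0 < μ) (hμ2 : μ ≤ 2 * c * V) (hτ : 0 ≤ τ) (hlt : τ < t)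
    (hev : ∀ e ∈ {e | ∃ i k, e = look i k ∨ e = fin i k}, e < t → e ≤ τ)
    (h : NC V c X look fin T μ τ) : NC V c X look fin T μ t := by
  have hord := S.order_of_NC hμ hτ h
  have hcV : 0 ≤ c * V := by
    have := S.cpos
    have := S.Vpos
    positivity
  intro i
  constructor
  · have h1 := S.hi_step hτ hlt hev hord i
    have h2 := S.lo_step hτ hlt hev hord (i + 1)
    have h3 := (h i).1
    have ha := S.X_le_hi (i := i) hτ
    have hb := S.lo_le_X (i := i + 1) hτ
    have ha' := S.lo_le_X (i := i) hτ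
    have hb' := S.X_le_hi (i := i + 1) hτ
    have h4 := (h i).2
    have h5 := (h (i + 1)).2
    rw [← hi_sub_lo] at h4 h5
    have h6 := S.Fx_abs_le i τ
    have h7 := S.Fx_abs_le (i + 1) τ
    rw [abs_le] at h6 h7
    -- what a move towards the gap tells
    have h8 : X i τ < Fx c V X i τ → 4 * c * V < X (i + 1) τ - X i τ :=
      fun hh => lt_of_F_gt S.cpos.le hh
    have h9 : Fx c V X (i + 1) τ < X (i + 1) τ → 4 * c * V < X (i + 1) τ - X i τ := by
      intro hh
      have := lt_of_F_lt S.cpos.le hh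
      rw [show i + 1 - 1 = i by ring] at this
      exact this
    rcases max_choice (hi X look fin T i τ) (Fx c V X i τ) with h10 | h10 <;>
      rcases min_choice (lo X look fin T (i + 1) τ) (Fx c V X (i + 1) τ) with h11 | h11 <;>
      rw [h10] at h1 <;> rw [h11] at h2
    · linarith
    · rcases lt_or_ge (Fx c V X (i + 1) τ) (X (i + 1) τ) with h12 | h12
      · have := h9 h12
        linarith [h7.1]
      · linarith
    · rcases lt_or_ge (X i τ) (Fx c V X i τ) with h12 | h12
      · have := h8 h12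
        linarith [h6.2]
      · linarith
    · rcases lt_or_ge (Fx c V X (i + 1) τ) (X (i + 1) τ) with h12 | h12
      · have := h9 h12
        linarith [h7.1, h6.2]
      · rcases lt_or_ge (X i τ) (Fx c V X i τ) with h13 | h13
        · have := h8 h13
          linarith [h6.2, h7.1]
        · linarith
  · rcases S.step' hτ hlt hev hord i with h1 | h1 | h1
    · obtain ⟨-, h3, h4, -⟩ := h1
      rw [h3, h4]
      exact (h i).2
    · obtain ⟨-, -, -, h3, h4⟩ := h1
      rw [h3, h4]
      exact S.Fx_abs_le i τ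
    · obtain ⟨-, -, h3, -, (⟨h4, -⟩ | ⟨-, h4⟩)⟩ := h1
      · rw [h3, h4, sub_self, abs_zero]
        exact hcV
      · rw [h3, h4]
        exact S.Fx_abs_le i τ

theorem cyc_zero (i : ℤ) : cyc fin i 0 = 0 := by
  apply S.cyc_eq
  · have := S.look0 i
    have := S.look_lt i 0
    linarith
  · intro k hk
    omega

theorem P_zero (i : ℤ) : P X look fin i 0 = X i 0 := by
  unfold P
  rw [S.cyc_zero]
  exact S.idle0 i _ (S.look0 i) le_rfl

theorem Tg_zero (i : ℤ) : Tg X look fin T i 0 = X i 0 := by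
  unfold Tg
  rw [S.cyc_zero, if_neg (not_lt.2 (S.look0 i)), S.P_zero]

theorem hi_zero (i : ℤ) : hi X look fin T i 0 = X i 0 := by
  unfold hi
  rw [S.P_zero, S.Tg_zero, max_self]

theorem lo_zero (i : ℤ) : lo X look fin T i 0 = X i 0 := by
  unfold lo
  rw [S.P_zero, S.Tg_zero, min_self]

/-- sensors never come near each other -/
theorem exists_NC : ∃ μ : ℝ, 0 < μ ∧ ∀ t, 0 ≤ t → NC V c X look fin T μ t := by
  have hcV : 0 < c * V := mul_pos S.cpos S.Vpos
  -- the smallest initial gap
  obtain ⟨μ₀, hμ₀, hgap⟩ : ∃ μ₀ : ℝ, 0 < μ₀ ∧ ∀ i, μ₀ ≤ X (i + 1) 0 - X i 0 := by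
    have hn : (Finset.Ico (0 : ℤ) n).Nonempty := by
      have := S.n2
      exact ⟨0, Finset.mem_Ico.2 ⟨le_rfl, by omega⟩⟩
    obtain ⟨j, hj, hmin⟩ := Finset.exists_min_image _ (fun i => X (i + 1) 0 - X i 0) hn
    refine ⟨X (j + 1) 0 - X j 0, sub_pos.2 (S.init j), ?_⟩
    apply S.per_ind (p := fun i => X (j + 1) 0 - X j 0 ≤ X (i + 1) 0 - X i 0)
    · intro i
      rw [show i + (n : ℤ) + 1 = (i + 1) + n by ring, S.X_per, S.X_per]
      constructor <;> intro h <;> linarith
    · intro i hi0 hi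
      exact hmin i (Finset.mem_Ico.2 ⟨hi0, hi⟩)
  refine ⟨min μ₀ (2 * c * V), lt_min hμ₀ (by linarith), ?_⟩
  apply time_induction (S.events_finite 0)
  · intro i
    rw [S.lo_zero, S.hi_zero, S.P_zero, S.Tg_zero, sub_self, abs_zero]
    exact ⟨(min_le_left _ _).trans (hgap i), hcV.le⟩
  · intro τ t hτ hlt hev h
    exact S.NC_step (lt_min hμ₀ (by linarith)) (min_le_right _ _) hτ hlt hev h

end nocol

section wts

theorem wt_le {n l : ℝ} : wt n l ≤ wt n n := by
  unfold wt
  nlinarith [sq_nonneg (n - l)]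

theorem wt_zero_le {n l : ℝ} (h0 : 0 ≤ l) (h : l ≤ n) : wt n 0 ≤ wt n l := by
  unfold wt
  nlinarith

end wts

/-- the limit spacing -/
noncomputable def th (n : ℕ) (L V c : ℝ) : ℝ := max (L / n) (4 * c * V)

/-- the potential is at most `G` -/
def Bd (n : ℕ) (L V c : ℝ) (X : ℤ → ℝ → ℝ) (look fin T : ℤ → ℕ → ℝ) (G t : ℝ) : Prop :=
  ∀ i : ℤ, ∀ l : ℕ, l ≤ n → hi X look fin T (i + l) t - lo X look fin T i t ≤
    th n L V c * l + G * wt n l

section closure

variable (S : Sys n L V c δ X look fin T)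
include S

theorem th_le : th n L V c ≤ V / 2 := by
  unfold th
  apply max_le
  · have := S.hV
    linarith
  · exact S.beta_le

theorem beta_le_th : 4 * c * V ≤ th n L V c := le_max_right _ _

theorem L_le : L ≤ th n L V c * n := by
  have h1 : L / n ≤ th n L V c := le_max_left _ _
  have h2 := S.npos
  rwa [div_le_iff₀ h2] at h1

theorem n2r : (2 : ℝ) ≤ n := by
  have := S.n2
  exact_mod_cast this

variable {G τ : ℝ} (hG : 0 ≤ G) (hGV : G * (2 * n) ≤ V - th n L V c) (hτ : 0 ≤ τ)
  (hB : Bd n L V c X look fin T G τ)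
include hG hGV hτ hB

theorem K0 (i : ℤ) : |Fx c V X i τ - X i τ| ≤ 2 * c * G * wt n n := by
  have hn := S.n2r
  have hn2 := S.n2
  have hc := S.cpos
  have hw1 : wt (n : ℝ) 1 ≤ wt n n := wt_le
  have hw2 : wt (n : ℝ) ((n - 1 : ℕ) : ℝ) ≤ wt n n := wt_le
  have hw3 : 0 ≤ wt (n : ℝ) 1 := by unfold wt; nlinarith
  have hθ := S.th_le
  have hV := S.Vpos
  have hcast : ((n - 1 : ℕ) : ℝ) = n - 1 := by
    rw [Nat.cast_sub (by omega)]; simp
  -- upper bounds of consecutive differences
  have hup : ∀ j : ℤ, X (j + 1) τ - X j τ ≤ th n L V c + G * wt n 1 := by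
    intro j
    have h1 := hB j 1 (by omega)
    have h2 := S.X_le_hi (i := j + 1) hτ
    have h3 := S.lo_le_X (i := j) hτ
    simp only [Nat.cast_one, mul_one] at h1
    linarith
  have hφup : ∀ j : ℤ, phi (4 * c * V) V (X (j + 1) τ - X j τ) ≤ th n L V c + G * wt n 1 := by
    intro j
    have h1 := phi_le_max (4 * c * V) V (X (j + 1) τ - X j τ)
    refine h1.trans (max_le ?_ (hup j))
    have h2 : 4 * c * V ≤ th n L V c := S.beta_le_th
    have h3 : 0 ≤ G * wt n 1 := mul_nonneg hG hw3
    linarith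
  have hφlow : ∀ j : ℤ, th n L V c - G * wt n ((n - 1 : ℕ) : ℝ) ≤
      phi (4 * c * V) V (X (j + 1) τ - X j τ) := by
    intro j
    have hw4 : 0 ≤ G * wt n ((n - 1 : ℕ) : ℝ) := by
      apply mul_nonneg hG
      rw [hcast]
      unfold wt
      nlinarith
    rcases max_choice (L / n) (4 * c * V) with h1 | h1
    · have h2 : th n L V c = L / n := h1
      have h3 := hB (j + 1) (n - 1) (by omega)
      have h4 : (j + 1 + ((n - 1 : ℕ) : ℤ)) = j + n := by
        rw [Nat.cast_sub (by omega)]; push_cast; ring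
      rw [h4, S.hi_per] at h3
      have h5 := S.X_le_hi (i := j) hτ
      have h6 := S.lo_le_X (i := j + 1) hτ
      have h7 : L = th n L V c * n := by
        rw [h2]
        field_simp
      rw [hcast] at h3 ⊢
      unfold phi
      refine le_trans ?_ (le_max_right _ _)
      apply le_min
      · have h8 : th n L V c * ((n : ℝ) - 1) = L - th n L V c := by rw [mul_sub, ← h7]; ring
        rw [h8] at h3
        linarith
      · rw [hcast] at hw4
        linarith
    · have h2 : th n L V c = 4 * c * V := h1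
      have h3 := le_phi (4 * c * V) V (X (j + 1) τ - X j τ)
      linarith
  have h1 := hφup i
  have h2 := hφlow i
  have h3 := hφup (i - 1)
  have h4 := hφlow (i - 1)
  rw [sub_add_cancel] at h3 h4
  have h5 : G * wt n 1 ≤ G * wt n n := mul_le_mul_of_nonneg_left hw1 hG
  have h6 : G * wt n ((n - 1 : ℕ) : ℝ) ≤ G * wt n n := mul_le_mul_of_nonneg_left hw2 hG
  unfold Fx F
  rw [add_sub_cancel_left, abs_mul, abs_of_pos hc]
  have h7 : |phi (4 * c * V) V (X (i + 1) τ - X i τ) - phi (4 * c * V) V (X i τ - X (i - 1) τ)| ≤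
      2 * (G * wt n n) := by
    rw [abs_le]
    constructor <;> linarith
  calc c * |phi (4 * c * V) V (X (i + 1) τ - X i τ) - phi (4 * c * V) V (X i τ - X (i - 1) τ)| ≤
      c * (2 * (G * wt n n)) := mul_le_mul_of_nonneg_left h7 hc.le
    _ = 2 * c * G * wt n n := by ring

theorem K0' (i : ℤ) : |Fx c V X i τ - X i τ| ≤ G * wt n 0 := by
  refine (S.K0 hG hGV hτ hB i).trans ?_
  have hn := S.n2r
  have hc := S.c_le
  have hc0 := S.cpos
  have h1 : 2 * c * wt n n ≤ wt n 0 := by
    unfold wt
    nlinarith [sq_nonneg (n : ℝ)]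
  nlinarith

theorem K1 {i : ℤ} {l : ℕ} (h1 : 1 ≤ l) (hl : l + 1 ≤ n) :
    Fx c V X (i + l) τ - lo X look fin T i τ ≤ th n L V c * l + G * wt n l - 2 * c * G := by
  obtain ⟨k, rfl⟩ : ∃ k, l = k + 1 := ⟨l - 1, by omega⟩
  have hk : (k : ℝ) + 2 ≤ n := by exact_mod_cast (by omega : k + 2 ≤ n)
  have e1 : i + ((k + 1 : ℕ) : ℤ) - 1 = i + k := by push_cast; ring
  have e2 : i + ((k + 1 : ℕ) : ℤ) + 1 = i + ((k + 2 : ℕ) : ℤ) := by push_cast; ring
  have ha := hB i k (by omega)
  have hx := hB i (k + 1) (by omega)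
  have hb := hB i (k + 2) (by omega)
  have ha' := S.X_le_hi (i := i + k) hτ
  have hx' := S.X_le_hi (i := i + ((k + 1 : ℕ) : ℤ)) hτ
  have hb' := S.X_le_hi (i := i + ((k + 2 : ℕ) : ℤ)) hτ
  have := upper (c := c) (β := 4 * c * V) (V := V) (θ := th n L V c) (G := G) (n := n) (k := k)
    (r := lo X look fin T i τ) (a := X (i + k) τ) (x := X (i + ((k + 1 : ℕ) : ℤ)) τ)
    (b := X (i + ((k + 2 : ℕ) : ℤ)) τ) S.cpos.le (by have := S.c_le; linarith) hG S.beta_le_th
    hGV (Nat.cast_nonneg k) hk (by push_cast at *; linarith) (by push_cast at *; linarith)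
    (by push_cast at *; linarith)
  unfold Fx
  rw [e1, e2]
  push_cast at *
  linarith

theorem K2 {i : ℤ} {l : ℕ} (h1 : 1 ≤ l) (hl : l + 1 ≤ n) :
    hi X look fin T (i + l) τ - Fx c V X i τ ≤ th n L V c * l + G * wt n l - 2 * c * G := by
  obtain ⟨k, rfl⟩ : ∃ k, l = k + 1 := ⟨l - 1, by omega⟩
  have hk : (k : ℝ) + 2 ≤ n := by exact_mod_cast (by omega : k + 2 ≤ n)
  have e1 : (i + 1) + (k : ℤ) = i + ((k + 1 : ℕ) : ℤ) := by push_cast; ring
  have e2 : (i - 1) + ((k + 2 : ℕ) : ℤ) = i + ((k + 1 : ℕ) : ℤ) := by push_cast; ring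
  have hb := hB (i + 1) k (by omega)
  have hx := hB i (k + 1) (by omega)
  have ha := hB (i - 1) (k + 2) (by omega)
  rw [e1] at hb
  rw [e2] at ha
  have ha' := S.lo_le_X (i := i - 1) hτ
  have hx' := S.lo_le_X (i := i) hτ
  have hb' := S.lo_le_X (i := i + 1) hτ
  have := lower (c := c) (β := 4 * c * V) (V := V) (θ := th n L V c) (G := G) (n := n) (k := k)
    (r := hi X look fin T (i + ((k + 1 : ℕ) : ℤ)) τ) (a := X (i - 1) τ) (x := X i τ)
    (b := X (i + 1) τ) S.cpos.le (by have := S.c_le; linarith) hG S.beta_le_th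
    hGV (Nat.cast_nonneg k) hk (by push_cast at *; linarith) (by push_cast at *; linarith)
    (by push_cast at *; linarith)
  unfold Fx
  push_cast at *
  linarith

theorem K2' {i : ℤ} {l : ℕ} (hl : l ≤ n) :
    X (i + l) τ - Fx c V X i τ ≤ th n L V c * l + G * wt n l := by
  have h0 := S.K0' hG hGV hτ hB i
  rw [abs_le] at h0
  have hc := S.cpos
  rcases Nat.eq_zero_or_pos l with rfl | h1
  · simp only [Nat.cast_zero, add_zero, mul_zero, zero_add]
    linarith [h0.1]
  · rcases Nat.lt_or_ge l n with h2 | h2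
    · have h3 := S.K2 hG hGV hτ hB (i := i) h1 h2
      have h4 := S.X_le_hi (i := i + l) hτ
      have h5 : 0 ≤ 2 * c * G := by positivity
      linarith
    · have h3 : l = n := le_antisymm hl h2
      rw [h3, S.X_per]
      have h4 := S.L_le
      have h5 : G * wt n 0 ≤ G * wt n n :=
        mul_le_mul_of_nonneg_left (wt_zero_le (Nat.cast_nonneg n) le_rfl) hG
      linarith [h0.1]

theorem K3 {i : ℤ} {l : ℕ} (h1 : 1 ≤ l) (hl : l + 1 ≤ n) :
    Fx c V X (i + l) τ - Fx c V X i τ ≤ th n L V c * l + G * wt n l - 2 * c * G := by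
  obtain ⟨k, rfl⟩ : ∃ k, l = k + 1 := ⟨l - 1, by omega⟩
  have hk : (k : ℝ) + 2 ≤ n := by exact_mod_cast (by omega : k + 2 ≤ n)
  have e1 : i + ((k + 1 : ℕ) : ℤ) - 1 = i + k := by push_cast; ring
  have e2 : i + ((k + 1 : ℕ) : ℤ) + 1 = i + ((k + 2 : ℕ) : ℤ) := by push_cast; ring
  have ha := S.K2' hG hGV hτ hB (i := i) (l := k) (by omega)
  have hx := S.K2' hG hGV hτ hB (i := i) (l := k + 1) (by omega)
  have hb := S.K2' hG hGV hτ hB (i := i) (l := k + 2) (by omega)
  have := upper (c := c) (β := 4 * c * V) (V := V) (θ := th n L V c) (G := G) (n := n) (k := k)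
    (r := Fx c V X i τ) (a := X (i + k) τ) (x := X (i + ((k + 1 : ℕ) : ℤ)) τ)
    (b := X (i + ((k + 2 : ℕ) : ℤ)) τ) S.cpos.le (by have := S.c_le; linarith) hG S.beta_le_th
    hGV (Nat.cast_nonneg k) hk (by push_cast at *; linarith) (by push_cast at *; linarith)
    (by push_cast at *; linarith)
  have h5 : Fx c V X (i + ((k + 1 : ℕ) : ℤ)) τ = F c (4 * c * V) V (X (i + k) τ)
      (X (i + ((k + 1 : ℕ) : ℤ)) τ) (X (i + ((k + 2 : ℕ) : ℤ)) τ) := by
    unfold Fx
    rw [e1, e2]
  rw [h5]
  push_cast at *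
  linarith

theorem Bd_step {μ t : ℝ} (hμ : 0 < μ) (hNC : NC V c X look fin T μ τ) (hlt : τ < t)
    (hev : ∀ e ∈ {e | ∃ i k, e = look i k ∨ e = fin i k}, e < t → e ≤ τ) :
    Bd n L V c X look fin T G t := by
  have hord := S.order_of_NC hμ hτ hNC
  have hc := S.cpos
  have hcG : 0 ≤ 2 * c * G := by positivity
  have h0 : ∀ i, hi X look fin T i t - lo X look fin T i t ≤ G * wt n 0 := by
    intro i
    rw [hi_sub_lo]
    have hK := S.K0' hG hGV hτ hB i
    have hw : 0 ≤ G * wt n 0 := (abs_nonneg _).trans hK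
    rcases S.step' hτ hlt hev hord i with h | h | h
    · obtain ⟨-, h3, h4, -⟩ := h
      rw [h3, h4, ← hi_sub_lo]
      have := hB i 0 (by omega)
      simpa using this
    · obtain ⟨-, -, -, h3, h4⟩ := h
      rw [h3, h4]
      exact hK
    · obtain ⟨-, -, h3, -, (⟨h4, -⟩ | ⟨-, h4⟩)⟩ := h
      · rw [h3, h4, sub_self, abs_zero]
        exact hw
      · rw [h3, h4]
        exact hK
  intro i l hl
  rcases Nat.eq_zero_or_pos l with rfl | h1
  · have := h0 i
    simpa using this
  · rcases Nat.lt_or_ge l n with h2 | h2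
    · have a1 := S.hi_step hτ hlt hev hord (i + l)
      have a2 := S.lo_step hτ hlt hev hord i
      have a3 := hB i l hl
      have a4 := S.K1 hG hGV hτ hB (i := i) h1 h2
      have a5 := S.K2 hG hGV hτ hB (i := i) h1 h2
      have a6 := S.K3 hG hGV hτ hB (i := i) h1 h2
      rcases max_choice (hi X look fin T (i + l) τ) (Fx c V X (i + l) τ) with h10 | h10 <;>
        rcases min_choice (lo X look fin T i τ) (Fx c V X i τ) with h11 | h11 <;>
        rw [h10] at a1 <;> rw [h11] at a2 <;> linarith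
    · have h3 : l = n := le_antisymm hl h2
      rw [h3, S.hi_per]
      have h4 := S.L_le
      have h5 : G * wt n 0 ≤ G * wt n n :=
        mul_le_mul_of_nonneg_left (wt_zero_le (Nat.cast_nonneg n) le_rfl) hG
      linarith [h0 i]

end closure

theorem conv_aux {p q x δ M B e : ℝ} (hδ : 0 < δ) (hM : 0 < M) (hx : x ∈ uIcc p q)
    (hx2 : min δ |q - p| ≤ |x - p|) (hqp : |q - p| ≤ M) (hp : p ≤ B) (hq : q ≤ B - e)
    (he : 0 ≤ e) : x ≤ B - min 1 (δ / M) * e := by
  have hl0 : 0 ≤ min 1 (δ / M) := le_min zero_le_one (div_nonneg hδ.le hM.le)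
  have hl1 : min 1 (δ / M) ≤ 1 := min_le_left _ _
  have hle : min 1 (δ / M) * e ≤ e := by nlinarith
  rcases le_total p q with h | h
  · rw [uIcc_of_le h] at hx
    linarith [hx.2]
  · rw [uIcc_of_ge h] at hx
    have h1 : |q - p| = p - q := by rw [abs_sub_comm, abs_of_nonneg (by linarith)]
    have h2 : |x - p| = p - x := by rw [abs_sub_comm, abs_of_nonneg (by linarith [hx.2])]
    rw [h1] at hx2 hqp
    rw [h2] at hx2
    have h3 : min 1 (δ / M) * (p - q) ≤ min δ (p - q) := by
      apply le_min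
      · have h4 : min 1 (δ / M) ≤ δ / M := min_le_right _ _
        calc min 1 (δ / M) * (p - q) ≤ δ / M * M :=
              mul_le_mul h4 hqp (by linarith) (div_nonneg hδ.le hM.le)
          _ = δ := by field_simp
      · nlinarith
    nlinarith

section phase

variable (S : Sys n L V c δ X look fin T)
include S

/-- the gain factor of a possibly interrupted move -/
noncomputable def lam (V c δ : ℝ) : ℝ := min 1 (δ / (c * V))

theorem lam_pos : 0 < lam V c δ := by
  have h1 : 0 < c * V := mul_pos S.cpos S.Vpos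
  exact lt_min one_pos (div_pos S.δpos h1)

omit S in
theorem lam_le : lam V c δ ≤ 1 := min_le_left _ _

/-- the invariants of a phase which starts at time `t₀` -/
def Ph (n : ℕ) (L V c δ : ℝ) (X : ℤ → ℝ → ℝ) (look fin T : ℤ → ℕ → ℝ) (G t₀ t : ℝ) : Prop :=
  Bd n L V c X look fin T G t ∧
  (∀ (i : ℤ) (l : ℕ), 1 ≤ l → l + 1 ≤ n → t₀ ≤ look (i + l) (cyc fin (i + l) t) →
    look (i + l) (cyc fin (i + l) t) < t →
    Tg X look fin T (i + l) t - lo X look fin T i t ≤
      th n L V c * l + G * wt n l - 2 * c * G) ∧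
  (∀ (i : ℤ) (l : ℕ) (k : ℕ), 1 ≤ l → l + 1 ≤ n → cyc fin (i + l) t = k + 1 →
    t₀ ≤ look (i + l) k →
    P X look fin (i + l) t - lo X look fin T i t ≤
      th n L V c * l + G * wt n l - lam V c δ * (2 * c * G)) ∧
  (∀ i, t₀ ≤ look i (cyc fin i t) → look i (cyc fin i t) < t →
    |Tg X look fin T i t - P X look fin i t| ≤ 2 * c * G * wt n n)

variable {G t₀ μ : ℝ} (hG : 0 ≤ G) (hGV : G * (2 * n) ≤ V - th n L V c) (ht₀ : 0 ≤ t₀)
  (hμ : 0 < μ) (hNC : ∀ t, 0 ≤ t → NC V c X look fin T μ t)
include hG hGV ht₀ hμ hNC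

theorem Ph_all (hB : Bd n L V c X look fin T G t₀) :
    ∀ t, t₀ ≤ t → Ph n L V c δ X look fin T G t₀ t := by
  have hc := S.cpos
  have hcG : 0 ≤ 2 * c * G := by positivity
  have hlam0 := S.lam_pos
  have hlam1 : lam V c δ ≤ 1 := lam_le
  have hlcG : lam V c δ * (2 * c * G) ≤ 2 * c * G := by nlinarith
  apply time_induction (S.events_finite t₀)
  · refine ⟨hB, ?_, ?_, ?_⟩
    · intro i l _ _ h1 h2
      linarith
    · intro i l k _ _ h1 h2
      have h3 : fin (i + l) k < t₀ := S.cyc_min (by omega)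
      have h4 := S.look_lt (i + l) k
      linarith
    · intro i h1 h2
      linarith
  · intro τ t hτ₀ hlt hev hPh
    have hτ : 0 ≤ τ := ht₀.trans hτ₀
    obtain ⟨hBτ, hA, hC, hD⟩ := hPh
    have hord := S.order_of_NC hμ hτ (hNC τ hτ)
    refine ⟨S.Bd_step hG hGV hτ hBτ hμ (hNC τ hτ) hlt hev, ?_, ?_, ?_⟩
    · intro i l h1 hl h2 h3
      have a1 := S.lo_step hτ hlt hev hord i
      have a2 := S.K1 hG hGV hτ hBτ (i := i) h1 hl
      have a3 := S.K2 hG hGV hτ hBτ (i := i) h1 hl
      have a4 := S.K3 hG hGV hτ hBτ (i := i) h1 hl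
      -- it suffices to compare with the lower end at `τ` and with the new target
      have key : ∀ v, v - lo X look fin T i τ ≤ th n L V c * l + G * wt n l - 2 * c * G →
          v - Fx c V X i τ ≤ th n L V c * l + G * wt n l - 2 * c * G →
          v - lo X look fin T i t ≤ th n L V c * l + G * wt n l - 2 * c * G := by
        intro v hv1 hv2
        rcases min_choice (lo X look fin T i τ) (Fx c V X i τ) with h11 | h11 <;>
          rw [h11] at a1 <;> linarith
      rcases S.step' hτ hlt hev hord (i + l) with h | h | h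
      · obtain ⟨b1, b2, b3, b4⟩ := h
        rw [b3]
        have b5 := hA i l h1 hl (by rw [← b1]; exact h2) (b4 h3)
        apply key _ b5
        have : Tg X look fin T (i + l) τ ≤ hi X look fin T (i + l) τ := le_max_right _ _
        linarith
      · obtain ⟨b1, b2, b3, b4, b5⟩ := h
        rw [b5]
        exact key _ a2 a4
      · obtain ⟨b1, b2, b3, b4, (⟨b5, b6⟩ | ⟨b5, b6⟩)⟩ := h
        · exact absurd h3 b6
        · rw [b6]
          exact key _ a2 a4
    · intro i l k h1 hl h2 h3
      have a1 := S.lo_step hτ hlt hev hord i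
      have a3 := S.K2 hG hGV hτ hBτ (i := i) h1 hl
      have key : ∀ v, v - lo X look fin T i τ ≤
          th n L V c * l + G * wt n l - lam V c δ * (2 * c * G) →
          v ≤ hi X look fin T (i + l) τ →
          v - lo X look fin T i t ≤
            th n L V c * l + G * wt n l - lam V c δ * (2 * c * G) := by
        intro v hv1 hv2
        rcases min_choice (lo X look fin T i τ) (Fx c V X i τ) with h11 | h11 <;>
          rw [h11] at a1 <;> linarith
      have same : cyc fin (i + l) t = cyc fin (i + l) τ →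
          P X look fin (i + l) t = P X look fin (i + l) τ →
          P X look fin (i + l) t - lo X look fin T i t ≤
            th n L V c * l + G * wt n l - lam V c δ * (2 * c * G) := by
        intro b1 b2
        rw [b2]
        exact key _ (hC i l k h1 hl (by rw [← b1]; exact h2) h3) (le_max_left _ _)
      rcases S.step' hτ hlt hev hord (i + l) with h | h | h
      · exact same h.1 h.2.1
      · exact same h.1 h.2.2.1
      · obtain ⟨b1, b2, b3, b4, -⟩ := h
        have b5 : k = cyc fin (i + l) τ := by omega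
        rw [b3]
        apply key _ _ (S.X_le_hi hτ)
        have b6 := hA i l h1 hl (by rw [← b5]; exact h3) b2
        have b7 := hBτ i l (by omega)
        have b8 : P X look fin (i + l) τ ≤ hi X look fin T (i + l) τ := le_max_left _ _
        have b9 := conv_aux S.δpos (mul_pos S.cpos S.Vpos) (S.hull (i := i + l) hτ) b4
          ((hNC τ hτ) (i + l)).2
          (B := lo X look fin T i τ + (th n L V c * l + G * wt n l)) (e := 2 * c * G)
          (by linarith) (by linarith) hcG
        unfold lam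
        linarith
    · intro i h2 h3
      rcases S.step' hτ hlt hev hord i with h | h | h
      · obtain ⟨b1, b2, b3, b4⟩ := h
        rw [b2, b3]
        exact hD i (by rw [← b1]; exact h2) (b4 h3)
      · obtain ⟨b1, b2, b3, b4, b5⟩ := h
        rw [b4, b5]
        exact S.K0 hG hGV hτ hBτ i
      · obtain ⟨b1, b2, b3, b4, (⟨b5, b6⟩ | ⟨b5, b6⟩)⟩ := h
        · exact absurd h3 b6
        · rw [b3, b6]
          exact S.K0 hG hGV hτ hBτ i

/-- the contraction factor -/
noncomputable def rho (n : ℕ) (V c δ : ℝ) : ℝ := 1 - lam V c δ * (2 * c) / wt n n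

theorem phase (hB : Bd n L V c X look fin T G t₀) :
    ∃ t₁, t₀ ≤ t₁ ∧ ∀ t, t₁ ≤ t → Bd n L V c X look fin T (G * rho n V c δ) t := by
  have hc := S.cpos
  have hc8 := S.c_le
  have hn := S.n2r
  have hcG : 0 ≤ 2 * c * G := by positivity
  have hlam0 := S.lam_pos
  have hlam1 : lam V c δ ≤ 1 := lam_le
  have hPh := S.Ph_all hG hGV ht₀ hμ hNC hB
  -- a time from which on all cycles in force began after `t₀`
  obtain ⟨t₁, ht₁, hk⟩ : ∃ t₁, t₀ ≤ t₁ ∧ ∀ i, ∃ k, t₀ ≤ look i k ∧ fin i k < t₁ := by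
    choose K hK using fun i : ℤ => S.unb i t₀
    have hne : (Finset.Ico (0 : ℤ) n).Nonempty := by
      have := S.n2
      exact ⟨0, Finset.mem_Ico.2 ⟨le_rfl, by omega⟩⟩
    obtain ⟨j, hj, hmax⟩ := Finset.exists_max_image _ (fun i => fin i (K i)) hne
    refine ⟨max t₀ (fin j (K j) + 1), le_max_left _ _, ?_⟩
    apply S.per_ind (p := fun i => ∃ k, t₀ ≤ look i k ∧ fin i k < max t₀ (fin j (K j) + 1))
    · intro i
      simp only [S.look_per, S.fin_per]
    · intro i h0 h1
      refine ⟨K i, hK i, ?_⟩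
      have h2 := hmax i (Finset.mem_Ico.2 ⟨h0, h1⟩)
      have h3 := le_max_right t₀ (fin j (K j) + 1)
      linarith
  refine ⟨t₁, ht₁, ?_⟩
  intro t ht
  have ht₀t : t₀ ≤ t := ht₁.trans ht
  obtain ⟨hBt, hA, hC, hD⟩ := hPh t ht₀t
  have hfresh : ∀ i, ∃ k, cyc fin i t = k + 1 ∧ t₀ ≤ look i k := by
    intro i
    obtain ⟨k, hk1, hk2⟩ := hk i
    have h1 : k < cyc fin i t := by
      by_contra hcon
      push Not at hcon
      have h2 := S.cyc_spec i t
      have h3 := (S.fin_strictMono i).monotone hcon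
      linarith
    exact ⟨cyc fin i t - 1, by omega, hk1.trans ((S.look_strictMono i).monotone (by omega))⟩
  have hfreshT : ∀ i, t₀ ≤ look i (cyc fin i t) := by
    intro i
    obtain ⟨k, hk1, hk2⟩ := hfresh i
    rw [hk1]
    exact hk2.trans (S.look_lt_look i k).le
  have hw : 0 < wt (n : ℝ) n := by unfold wt; nlinarith
  have hrho : G * rho n V c δ = G - lam V c δ * (2 * c * G) / wt n n := by
    unfold rho
    ring
  have hgain : ∀ l : ℝ, 0 ≤ l → l ≤ n →
      G * wt n l - lam V c δ * (2 * c * G) ≤ G * rho n V c δ * wt n l := by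
    intro l _ _
    rw [hrho]
    have h1 : wt (n : ℝ) l ≤ wt n n := wt_le
    have h2 : lam V c δ * (2 * c * G) / wt n n * wt n l ≤ lam V c δ * (2 * c * G) := by
      rw [div_mul_eq_mul_div, div_le_iff₀ hw]
      apply mul_le_mul_of_nonneg_left h1
      positivity
    linarith
  have h0 : ∀ i, hi X look fin T i t - lo X look fin T i t ≤ G * rho n V c δ * wt n 0 := by
    intro i
    rw [hi_sub_lo]
    have h1 : |Tg X look fin T i t - P X look fin i t| ≤ 2 * c * G * wt n n := by
      by_cases h2 : look i (cyc fin i t) < t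
      · exact hD i (hfreshT i) h2
      · have h3 : Tg X look fin T i t = P X look fin i t := by
          unfold Tg
          rw [if_neg h2]
        rw [h3, sub_self, abs_zero]
        positivity
    have h4 := hgain 0 le_rfl (Nat.cast_nonneg n)
    have h5 : 2 * c * G * wt n n ≤ G * wt n 0 - lam V c δ * (2 * c * G) := by
      have h6 : lam V c δ * (2 * c * G) ≤ 2 * c * G := by nlinarith
      have h7 : 2 * c * wt (n : ℝ) n + 2 * c ≤ wt n 0 := by
        unfold wt
        nlinarith [sq_nonneg (n : ℝ)]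
      nlinarith
    linarith
  intro i l hl
  rcases Nat.eq_zero_or_pos l with rfl | h1
  · have := h0 i
    simpa using this
  · rcases Nat.lt_or_ge l n with h2 | h2
    · obtain ⟨k, hk1, hk2⟩ := hfresh (i + l)
      have a1 := hC i l k h1 h2 hk1 hk2
      have a2 : Tg X look fin T (i + l) t - lo X look fin T i t ≤
          th n L V c * l + G * wt n l - lam V c δ * (2 * c * G) := by
        by_cases h3 : look (i + l) (cyc fin (i + l) t) < t
        · have h4 := hA i l h1 h2 (hfreshT (i + l)) h3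
          have h6 : lam V c δ * (2 * c * G) ≤ 2 * c * G := by nlinarith
          linarith
        · have h4 : Tg X look fin T (i + l) t = P X look fin (i + l) t := by
            unfold Tg
            rw [if_neg h3]
          rw [h4]
          exact a1
      have a3 := hgain l (Nat.cast_nonneg l) (by exact_mod_cast hl)
      have a4 : hi X look fin T (i + l) t =
          max (P X look fin (i + l) t) (Tg X look fin T (i + l) t) := rfl
      rcases max_choice (P X look fin (i + l) t) (Tg X look fin T (i + l) t) with h5 | h5 <;>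
        rw [a4, h5] <;> linarith
    · have h3 : l = n := le_antisymm hl h2
      rw [h3, S.hi_per]
      have h4 := S.L_le
      have h5 : G * rho n V c δ * wt n 0 ≤ G * rho n V c δ * wt n n := by
        apply mul_le_mul_of_nonneg_left (wt_zero_le (Nat.cast_nonneg n) le_rfl)
        have h6 : lam V c δ * (2 * c) / wt n n ≤ 1 := by
          rw [div_le_one hw]
          have : wt (n : ℝ) n = 3 * (n : ℝ) ^ 2 := by unfold wt; ring
          nlinarith
        have h7 : 0 ≤ rho n V c δ := by
          unfold rho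
          linarith
        exact mul_nonneg hG h7
      linarith [h0 i]

end phase

section final

variable (S : Sys n L V c δ X look fin T)
include S

theorem rho_pos_lt : 0 ≤ rho n V c δ ∧ rho n V c δ < 1 := by
  have hn := S.n2r
  have hc := S.cpos
  have hc8 := S.c_le
  have hlam0 := S.lam_pos
  have hlam1 : lam V c δ ≤ 1 := lam_le
  have hw : 0 < wt (n : ℝ) n := by unfold wt; nlinarith
  have h6 : lam V c δ * (2 * c) / wt n n ≤ 1 := by
    rw [div_le_one hw]
    have : wt (n : ℝ) n = 3 * (n : ℝ) ^ 2 := by unfold wt; ring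
    nlinarith
  have h7 : 0 < lam V c δ * (2 * c) / wt n n := by positivity
  unfold rho
  constructor <;> linarith

theorem X_le_init {i : ℤ} {l : ℕ} (hl : l ≤ n) : X (i + l) 0 - X i 0 ≤ L := by
  have hmono : StrictMono (fun j => X j 0) := by
    apply strictMono_int_of_lt_succ
    exact S.init
  have h1 : X (i + l) 0 ≤ X (i + n) 0 := hmono.monotone (by omega)
  rw [S.X_per] at h1
  linarith

/-- all gaps are eventually at most the limit spacing plus `η` -/
theorem gaps {η : ℝ} (hη : 0 < η) : ∃ t₁, 0 ≤ t₁ ∧ ∀ t, t₁ ≤ t → ∀ i,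
    X (i + 1) t - X i t ≤ th n L V c + η := by
  obtain ⟨μ, hμ, hNC⟩ := S.exists_NC
  obtain ⟨hr0, hr1⟩ := S.rho_pos_lt
  have hn := S.n2r
  have hnp := S.npos
  have hL := S.Lpos
  set G₀ : ℝ := L / (2 * n ^ 2) with hG₀
  have hG₀pos : 0 ≤ G₀ := by positivity
  have hG₀V : G₀ * (2 * n) ≤ V - th n L V c := by
    have h1 : G₀ * (2 * n) = L / n := by
      rw [hG₀]
      field_simp
    have h2 := S.th_le
    have h3 := S.hV
    rw [h1]
    linarith
  have h0 : Bd n L V c X look fin T G₀ 0 := by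
    intro i l hl
    rw [S.hi_zero, S.lo_zero]
    have h1 := S.X_le_init (i := i) hl
    have h2 : L ≤ G₀ * wt n l := by
      have h3 : wt (n : ℝ) 0 ≤ wt n l := wt_zero_le (Nat.cast_nonneg l) (by exact_mod_cast hl)
      have h4 : G₀ * wt n 0 = L := by
        rw [hG₀]
        unfold wt
        field_simp
        ring
      nlinarith
    have h3 : 0 ≤ th n L V c * l := by
      have h4 := S.beta_pos
      have h5 : 4 * c * V ≤ th n L V c := S.beta_le_th
      have h6 : (0 : ℝ) ≤ l := Nat.cast_nonneg l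
      nlinarith
    linarith
  have hk : ∀ k : ℕ, ∃ t₁, 0 ≤ t₁ ∧ ∀ t, t₁ ≤ t →
      Bd n L V c X look fin T (G₀ * rho n V c δ ^ k) t := by
    intro k
    induction k with
    | zero =>
      refine ⟨0, le_rfl, ?_⟩
      intro t ht
      rw [pow_zero, mul_one]
      exact (S.Ph_all hG₀pos hG₀V le_rfl hμ hNC h0 t ht).1
    | succ k ih =>
      obtain ⟨t₁, ht₁, hB⟩ := ih
      have hp1 : rho n V c δ ^ k ≤ 1 := pow_le_one₀ hr0 hr1.le
      have hp0 : 0 ≤ rho n V c δ ^ k := pow_nonneg hr0 k
      have hGk : 0 ≤ G₀ * rho n V c δ ^ k := mul_nonneg hG₀pos hp0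
      have hGkV : G₀ * rho n V c δ ^ k * (2 * n) ≤ V - th n L V c := by
        have h1 : G₀ * rho n V c δ ^ k ≤ G₀ := by nlinarith
        nlinarith
      obtain ⟨t₂, ht₂, hB₂⟩ := S.phase hGk hGkV ht₁ hμ hNC (hB t₁ le_rfl)
      refine ⟨t₂, ht₁.trans ht₂, ?_⟩
      rw [pow_succ, ← mul_assoc]
      exact hB₂
  have hw : 0 < wt (n : ℝ) 1 := by unfold wt; nlinarith
  obtain ⟨k, hkη⟩ : ∃ k : ℕ, G₀ * rho n V c δ ^ k * wt n 1 ≤ η := by
    have h1 : Filter.Tendsto (fun k : ℕ => G₀ * rho n V c δ ^ k * wt n 1) Filter.atTop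
        (nhds (G₀ * 0 * wt n 1)) :=
      ((tendsto_pow_atTop_nhds_zero_of_lt_one hr0 hr1).const_mul G₀).mul_const _
    rw [mul_zero, zero_mul] at h1
    exact ((h1.eventually (gt_mem_nhds hη)).exists).imp (fun k hk => hk.le)
  obtain ⟨t₁, ht₁, hB⟩ := hk k
  refine ⟨t₁, ht₁, ?_⟩
  intro t ht i
  have h1 := hB t ht i 1 (by have := S.n2; omega)
  have h2 := S.X_le_hi (i := i + 1) (ht₁.trans ht)
  have h3 := S.lo_le_X (i := i) (ht₁.trans ht)
  simp only [Nat.cast_one, mul_one] at h1
  linarith

theorem cover {ε : ℝ} (hε : 8 * c * V ≤ ε) : ∃ t₁, 0 ≤ t₁ ∧ ∀ t, t₁ ≤ t → ∀ i,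
    |X (i + 1) t - X i t - L / n| ≤ ε := by
  have hn := S.n2r
  have hnp := S.npos
  have hβ := S.beta_pos
  have hεpos : 0 < ε := by linarith
  obtain ⟨μ, hμ, hNC⟩ := S.exists_NC
  obtain ⟨t₁, ht₁, hgap⟩ := S.gaps (η := ε / (2 * n)) (by positivity)
  refine ⟨t₁, ht₁, ?_⟩
  intro t ht i
  have hη : ε / (2 * n) ≤ ε / 2 := by
    apply div_le_div_of_nonneg_left hεpos.le two_pos
    linarith
  have hup := hgap t ht i
  have hpos := S.order_of_NC hμ (ht₁.trans ht) (hNC t (ht₁.trans ht)) i
  have htel : ∀ m : ℕ, X (i + 1 + m) t - X (i + 1) t ≤ m * (th n L V c + ε / (2 * n)) := by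
    intro m
    induction m with
    | zero => simp
    | succ m ih =>
      have h1 := hgap t ht (i + 1 + m)
      push_cast
      rw [← add_assoc (i + 1)]
      linarith
  have h1 := htel (n - 1)
  have h2 : i + 1 + ((n - 1 : ℕ) : ℤ) = i + n := by
    have := S.n2
    rw [Nat.cast_sub (by omega)]; push_cast; ring
  have h3 : ((n - 1 : ℕ) : ℝ) = n - 1 := by
    have := S.n2
    rw [Nat.cast_sub (by omega)]; simp
  rw [h2, h3, S.X_per] at h1
  have h4 : ε / (2 * n) * n = ε / 2 := by field_simp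
  rcases max_choice (L / n) (4 * c * V) with h5 | h5
  · have h6 : th n L V c = L / n := h5
    rw [h6] at h1 hup
    have h7 : L / n * n = L := by field_simp
    rw [abs_le]
    constructor
    · nlinarith
    · linarith
  · have h6 : th n L V c = 4 * c * V := h5
    have h7 : L / n ≤ 4 * c * V := by
      have := le_max_left (L / n) (4 * c * V)
      rwa [h5] at this
    have h8 : 0 < L / n := div_pos S.Lpos hnp
    rw [h6] at hup
    rw [abs_le]
    constructor <;> linarith

end final

end Sys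

end Pool.Agent.H710.RingCore
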